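import Pool.Agent.Y916.Al.Stm

/-!
# Linear independence of power series and extension of the constants
-/

set_option autoImplicit false

open PowerSeries Finset.HasAntidiagonal

namespace Pool.Agent.Y708.AL

/-- the polynomial with the coefficients `φ (coeff m P)` -/
noncomputable def phiP {F : Type} [Field F] [Algebra ℚ F] (φ : Module.Dual ℚ F)
    (P : Polynomial F) : Polynomial ℚ :=
  P.sum fun n a => Polynomial.monomial n (φ a)

lemma coeff_phiP {F : Type} [Field F] [Algebra ℚ F] (φ : Module.Dual ℚ F)
    (P : Polynomial F) (m : ℕ) : (phiP φ P).coeff m = φ (P.coeff m) := by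
  rw [phiP, Polynomial.sum_def, Polynomial.finsetSum_coeff]
  simp only [Polynomial.coeff_monomial]
  rw [Finset.sum_ite_eq' P.support m]
  split_ifs with h
  · rfl
  · rw [Polynomial.notMem_support_iff.1 h, map_zero]

theorem t_ext : Pool.Agent.Y916.Al.S_ext := by
  intro F _ _ _ N y hy
  rw [Fintype.linearIndependent_iff] at hy ⊢
  intro P hP i
  have key : ∀ φ : Module.Dual ℚ F, ∀ i, phiP φ (P i) = 0 := by
    intro φ
    apply hy (fun i => phiP φ (P i))
    ext n
    rw [map_zero]
    have h1 : φ (coeff n (∑ i, P i • PowerSeries.map (algebraMap ℚ F) (y i))) = 0 := by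
      rw [hP, map_zero, map_zero]
    rw [← h1, map_sum, map_sum, map_sum]
    refine Finset.sum_congr rfl fun j _ => ?_
    have h2 : phiP φ (P j) • y j = ((phiP φ (P j) : Polynomial ℚ) : ℚ⟦X⟧) * y j := rfl
    have h3 : P j • PowerSeries.map (algebraMap ℚ F) (y j) =
        ((P j : Polynomial F) : F⟦X⟧) * PowerSeries.map (algebraMap ℚ F) (y j) := rfl
    rw [h2, h3, coeff_mul, coeff_mul, map_sum]
    refine Finset.sum_congr rfl fun p _ => ?_
    rw [Polynomial.coeff_coe, Polynomial.coeff_coe, coeff_phiP, coeff_map, mul_comm (P j |>.coeff p.1),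
      ← Algebra.smul_def, map_smul, smul_eq_mul, mul_comm]
  ext m
  rw [Polynomial.coeff_zero]
  rw [← Module.forall_dual_apply_eq_zero_iff ℚ]
  intro φ
  rw [← coeff_phiP, key φ i, Polynomial.coeff_zero]

end Pool.Agent.Y708.AL
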