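import Pool.Agent.Y492.AL.Stm

/-!
# Project AL: `S_TAY`, from the expansion of the connection probability to that of the density
-/

set_option autoImplicit false

namespace Pool.Agent.Y708.AL

open Pool.Agent.Y492.AL MeasureTheory Filter Topology

theorem tay : S_TAY := by
  intro g κ c C' hC' hg hκ hexp
  have hint : ∀ a b : ℝ, 0 ≤ a → a ≤ 1 → 0 ≤ b → b ≤ 1 → IntervalIntegrable g volume a b := by
    intro a b ha ha1 hb hb1
    apply ContinuousOn.intervalIntegrable
    apply hg.mono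
    intro x hx
    rcases le_total a b with h | h
    · rw [Set.uIcc_of_le h] at hx; exact ⟨by linarith [hx.1], by linarith [hx.2]⟩
    · rw [Set.uIcc_of_ge h] at hx; exact ⟨by linarith [hx.1], by linarith [hx.2]⟩
  have hint2 : ∀ a b : ℝ, 0 ≤ a → a ≤ 1 → 0 ≤ b → b ≤ 1 →
      IntervalIntegrable (fun s => 2 - g s) volume a b := by
    intro a b ha ha1 hb hb1
    exact (intervalIntegrable_const).sub (hint a b ha ha1 hb hb1)
  have hder : ∀ p, 0 < p → p < 1 → HasDerivAt κ (g p - 2) p := by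
    intro p hp hp1
    have hcont : ContinuousAt g p := hg.continuousAt (Icc_mem_nhds hp hp1)
    have hmeas : StronglyMeasurableAtFilter (fun s => 2 - g s) (𝓝 p) volume := by
      have h0 : ContinuousOn (fun s => 2 - g s) (Set.Ioo (0:ℝ) 1) :=
        continuousOn_const.sub (hg.mono Set.Ioo_subset_Icc_self)
      exact h0.stronglyMeasurableAtFilter isOpen_Ioo p ⟨hp, hp1⟩
    have h1 : HasDerivAt (fun u => ∫ s in (0:ℝ)..u, (2 - g s)) (2 - g p) p :=
      intervalIntegral.integral_hasDerivAt_right (hint2 0 p le_rfl zero_le_one hp.le hp1.le)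
        hmeas (continuousAt_const.sub hcont)
    have h2 : HasDerivAt (fun u => 1 - ∫ s in (0:ℝ)..u, (2 - g s)) (-(2 - g p)) p :=
      h1.const_sub 1
    have h3 : κ =ᶠ[𝓝 p] fun u => 1 - ∫ s in (0:ℝ)..u, (2 - g s) := by
      filter_upwards [Icc_mem_nhds hp hp1] with x hx using hκ x hx.1 hx.2
    have h4 := h2.congr_of_eventuallyEq h3
    have h5 : -(2 - g p) = g p - 2 := by ring
    rwa [h5] at h4
  have hgder : HasDerivAt g c (1/2) := by
    rw [hasDerivAt_iff_isLittleO_nhds_zero, Asymptotics.isLittleO_iff]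
    intro ε hε
    have hlim : Tendsto (fun t : ℝ => C' * |t| ^ (2/3 : ℝ)) (𝓝 0) (𝓝 0) := by
      have h1 : ContinuousAt (fun t : ℝ => C' * |t| ^ (2/3 : ℝ)) 0 := by
        apply ContinuousAt.mul continuousAt_const
        apply ContinuousAt.rpow_const continuous_abs.continuousAt
        right; norm_num
      have h2 : C' * |(0:ℝ)| ^ (2/3 : ℝ) = 0 := by
        rw [abs_zero, Real.zero_rpow (by norm_num), mul_zero]
      have h3 := h1.tendsto
      rwa [h2] at h3
    have hev1 : ∀ᶠ t in 𝓝 (0:ℝ), C' * |t| ^ (2/3 : ℝ) < ε := hlim.eventually_lt_const hε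
    have hev2 : ∀ᶠ t in 𝓝 (0:ℝ), |t| ≤ 1/2 := by
      filter_upwards [Icc_mem_nhds (show (-(1/2:ℝ)) < 0 by norm_num) (show (0:ℝ) < 1/2 by norm_num)]
        with t ht
      exact abs_le.2 ⟨ht.1, ht.2⟩
    filter_upwards [hev1, hev2] with t h1 h2
    have h3 := hexp t h2
    rw [smul_eq_mul, Real.norm_eq_abs, Real.norm_eq_abs]
    have h4 : g (1/2 + t) - g (1/2) - t * c = g (1/2 + t) - g (1/2) - c * t := by ring
    rw [h4]
    refine h3.trans ?_
    have h5 : |t| ^ (5/3 : ℝ) = |t| ^ (2/3 : ℝ) * |t| := by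
      rcases eq_or_lt_of_le (abs_nonneg t) with h0 | h0
      · rw [← h0, mul_zero, Real.zero_rpow (by norm_num)]
      · conv_rhs => rw [← Real.rpow_one |t|]
        rw [← Real.rpow_mul (abs_nonneg t), ← Real.rpow_add (by simpa using h0)]
        norm_num
    rw [h5, ← mul_assoc]
    exact mul_le_mul_of_nonneg_right h1.le (abs_nonneg t)
  have hdd : HasDerivAt (deriv κ) c (1/2) := by
    have h1 : deriv κ =ᶠ[𝓝 (1/2)] fun p => g p - 2 := by
      filter_upwards [Ioo_mem_nhds (show (0:ℝ) < 1/2 by norm_num) (show (1/2:ℝ) < 1 by norm_num)]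
        with p hp using (hder p hp.1 hp.2).deriv
    exact (hgder.sub_const 2).congr_of_eventuallyEq h1
  refine ⟨hder, hdd, ?_⟩
  intro p hp hp1
  have hd1 : deriv κ (1/2) = g (1/2) - 2 := (hder (1/2) (by norm_num) (by norm_num)).deriv
  rw [hd1, hdd.deriv]
  have hhalf0 : (0:ℝ) ≤ 1/2 := by norm_num
  have hhalf1 : (1/2:ℝ) ≤ 1 := by norm_num
  have e1 : κ p - κ (1/2) = ∫ s in (1/2:ℝ)..p, (g s - 2) := by
    rw [hκ p hp hp1, hκ (1/2) hhalf0 hhalf1]
    have h1 := intervalIntegral.integral_add_adjacent_intervals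
      (hint2 0 (1/2) le_rfl zero_le_one hhalf0 hhalf1) (hint2 (1/2) p hhalf0 hhalf1 hp hp1)
    have h2 : ∫ s in (1/2:ℝ)..p, (g s - 2) = - ∫ s in (1/2:ℝ)..p, (2 - g s) := by
      rw [← intervalIntegral.integral_neg]
      congr 1
      ext s; ring
    rw [h2]
    linarith
  have e2 : ∫ s in (1/2:ℝ)..p, (g (1/2) - 2 + c * (s - 1/2)) =
      (g (1/2) - 2) * (p - 1/2) + (1/2) * c * (p - 1/2) ^ 2 := by
    have hF : ∀ x ∈ Set.uIcc (1/2:ℝ) p, HasDerivAt
        (fun s : ℝ => (g (1/2) - 2) * s + (1/2) * c * (s - 1/2) ^ 2)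
        (g (1/2) - 2 + c * (x - 1/2)) x := by
      intro x _
      have h1 : HasDerivAt (fun s : ℝ => (g (1/2) - 2) * s) ((g (1/2) - 2) * 1) x :=
        (hasDerivAt_id x).const_mul _
      have h2 : HasDerivAt (fun s : ℝ => (s - 1/2) ^ 2) (2 * (x - 1/2) ^ (2 - 1) * 1) x :=
        ((hasDerivAt_id x).sub_const (1/2 : ℝ)).pow 2
      have h3 := h1.add (h2.const_mul ((1/2) * c))
      have h4 : (g (1/2) - 2) * 1 + 1/2 * c * (2 * (x - 1/2) ^ (2 - 1) * 1) =
          g (1/2) - 2 + c * (x - 1/2) := by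
        norm_num; ring
      rw [h4] at h3
      exact h3
    rw [intervalIntegral.integral_eq_sub_of_hasDerivAt hF
      (Continuous.intervalIntegrable (by fun_prop) _ _)]
    ring
  have e3 : κ p - κ (1/2) - (g (1/2) - 2) * (p - 1/2) - (1/2) * c * (p - 1/2) ^ 2 =
      ∫ s in (1/2:ℝ)..p, (g s - g (1/2) - c * (s - 1/2)) := by
    have h1 : ∫ s in (1/2:ℝ)..p, (g s - g (1/2) - c * (s - 1/2)) =
        (∫ s in (1/2:ℝ)..p, (g s - 2)) - ∫ s in (1/2:ℝ)..p, (g (1/2) - 2 + c * (s - 1/2)) := by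
      rw [← intervalIntegral.integral_sub
        ((hint (1/2) p hhalf0 hhalf1 hp hp1).sub intervalIntegrable_const)
        (Continuous.intervalIntegrable (by fun_prop) _ _)]
      congr 1
      ext s; ring
    rw [h1, e2, e1]
    ring
  rw [e3]
  have hb : ∀ s ∈ Set.uIoc (1/2:ℝ) p, ‖g s - g (1/2) - c * (s - 1/2)‖ ≤
      C' * |p - 1/2| ^ (5/3 : ℝ) := by
    intro s hs
    have hs' : |s - 1/2| ≤ |p - 1/2| := by
      rcases le_total (1/2:ℝ) p with h | h
      · rw [Set.uIoc_of_le h] at hs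
        rw [abs_of_nonneg (by linarith [hs.1]), abs_of_nonneg (by linarith)]
        linarith [hs.2]
      · rw [Set.uIoc_of_ge h] at hs
        rw [abs_of_nonpos (by linarith [hs.2]), abs_of_nonpos (by linarith)]
        linarith [hs.1]
    have hs2 : |s - 1/2| ≤ 1/2 := by
      refine hs'.trans ?_
      rw [abs_le]; constructor <;> linarith
    have h1 := hexp (s - 1/2) hs2
    rw [show 1/2 + (s - 1/2) = s by ring] at h1
    rw [Real.norm_eq_abs]
    refine h1.trans ?_
    apply mul_le_mul_of_nonneg_left _ hC'.le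
    exact Real.rpow_le_rpow (abs_nonneg _) hs' (by norm_num)
  have h2 := intervalIntegral.norm_integral_le_of_norm_le_const hb
  rw [Real.norm_eq_abs] at h2
  refine h2.trans (le_of_eq ?_)
  rw [mul_assoc]
  congr 1
  rcases eq_or_lt_of_le (abs_nonneg (p - 1/2)) with h0 | h0
  · rw [← h0, mul_zero, Real.zero_rpow (by norm_num)]
  · conv_lhs => rw [← Real.rpow_one |p - 1/2|]
    rw [← Real.rpow_mul (abs_nonneg _), ← Real.rpow_add (by simpa using h0)]
    norm_num

end Pool.Agent.Y708.AL
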