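import Pool.Agent.Y916.Al.Stm

/-!
# The product formula for a determinant over a number field
-/

set_option autoImplicit false

namespace Pool.Agent.Y708.AL

/-- bound for a complex determinant by bounds for the rows -/
lemma det_boundC {N : ℕ} (B : Matrix (Fin N) (Fin N) ℂ) (ρ : Fin N → ℝ)
    (h : ∀ r j, ‖B r j‖ ≤ ρ r) : ‖B.det‖ ≤ (N.factorial : ℝ) * ∏ r, ρ r := by
  rw [Matrix.det_apply]
  refine (norm_sum_le _ _).trans ?_
  have h1 : ∀ σ : Equiv.Perm (Fin N), ‖Equiv.Perm.sign σ • ∏ i, B (σ i) i‖ ≤ ∏ r, ρ r := by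
    intro σ
    have h2 : ‖Equiv.Perm.sign σ • ∏ i, B (σ i) i‖ = ∏ i, ‖B (σ i) i‖ := by
      rw [← norm_prod]
      rcases Int.units_eq_one_or (Equiv.Perm.sign σ) with h | h <;> rw [h] <;> simp
    rw [h2]
    calc ∏ i, ‖B (σ i) i‖ ≤ ∏ i, ρ (σ i) :=
          Finset.prod_le_prod (fun i _ => norm_nonneg _) fun i _ => h _ _
      _ = ∏ r, ρ r := Equiv.prod_comp σ ρ
  refine (Finset.sum_le_sum fun σ _ => h1 σ).trans ?_
  simp [Finset.card_univ, Fintype.card_perm]

lemma prod_rows {N : ℕ} (I : Finset (Fin N)) (A Z : ℝ) :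
    ∏ r : Fin N, (if r ∈ I then A else Z) = A ^ I.card * Z ^ (N - I.card) := by
  rw [Finset.prod_ite]
  have h1 : Finset.univ.filter (fun r : Fin N => r ∈ I) = I := by ext; simp
  have h2 : (Finset.univ.filter (fun r : Fin N => r ∉ I)).card = N - I.card := by
    have h3 : Finset.univ.filter (fun r : Fin N => r ∉ I) = Iᶜ := by ext; simp
    rw [h3, Finset.card_compl, Fintype.card_fin]
  rw [h1, Finset.prod_const, Finset.prod_const, h2]

theorem t_det : Pool.Agent.Y916.Al.S_det := by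
  classical
  intro m N K hK hm M I i₀ Y A Z L hdet hint hY hA hZ hL h0 h1 hIA hIZ
  set B : ℝ := N.factorial * A ^ N * Z ^ (N - I.card) with hB
  have hIN : I.card ≤ N := by
    have := Finset.card_le_univ I
    rwa [Fintype.card_fin] at this
  have hA0 : 0 ≤ A := zero_le_one.trans hA
  have hZ0 : 0 ≤ Z := zero_le_one.trans hZ
  have hfac : (1 : ℝ) ≤ N.factorial := by exact_mod_cast Nat.succ_le_of_lt (Nat.factorial_pos N)
  have hB1 : 1 ≤ B := by
    have h2 : (1 : ℝ) ≤ A ^ N := one_le_pow₀ hA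
    have h3 : (1 : ℝ) ≤ Z ^ (N - I.card) := one_le_pow₀ hZ
    rw [hB]
    exact one_le_mul_of_one_le_of_one_le (one_le_mul_of_one_le_of_one_le hfac h2) h3
  -- all conjugates
  have hconj : ∀ σ : K →+* ℂ, ‖σ M.det‖ ≤ B := by
    intro σ
    rw [RingHom.map_det]
    refine (det_boundC _ (fun r => if r ∈ I then A else Z) ?_).trans ?_
    · intro r j
      rw [RingHom.mapMatrix_apply, Matrix.map_apply]
      by_cases hr : r ∈ I
      · rw [if_pos hr]; exact hIA r hr j σ
      · rw [if_neg hr]; exact hIZ r hr j σ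
    · rw [prod_rows, hB, ← mul_assoc]
      exact mul_le_mul_of_nonneg_right (mul_le_mul_of_nonneg_left
        (pow_le_pow_right₀ hA hIN) (by positivity)) (by positivity)
  -- the inclusion
  have hincl : ‖((M.det : K) : ℂ)‖ ≤ N * L * B := by
    set R : Matrix (Fin N) (Fin N) ℂ := M.map (fun x : K => (x : ℂ)) with hR
    have hRd : R.det = ((M.det : K) : ℂ) := by
      have h2 := RingHom.map_det (algebraMap K ℂ) M
      rw [show ((M.det : K) : ℂ) = algebraMap K ℂ M.det from rfl, h2]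
      rfl
    have h2 : R.det * Y i₀ = ∑ r, R.adjugate i₀ r * (R.mulVec Y) r := by
      have h3 : R.adjugate.mulVec (R.mulVec Y) = R.det • Y := by
        rw [Matrix.mulVec_mulVec, Matrix.adjugate_mul, Matrix.smul_mulVec, Matrix.one_mulVec]
      have := congrFun h3 i₀
      rw [Pi.smul_apply, smul_eq_mul] at this
      rw [← this]
      rfl
    rw [hY, mul_one] at h2
    rw [← hRd, h2]
    refine (norm_sum_le _ _).trans ?_
    have h3 : ∀ r : Fin N, ‖R.adjugate i₀ r * (R.mulVec Y) r‖ ≤ B * L := by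
      intro r
      have hmv : (R.mulVec Y) r = ∑ j, ((M r j : K) : ℂ) * Y j := rfl
      by_cases hr : r ∈ I
      · rw [hmv, h0 r hr, mul_zero, norm_zero]
        positivity
      · rw [norm_mul, hmv]
        refine mul_le_mul ?_ (h1 r hr) (norm_nonneg _) (by positivity)
        rw [Matrix.adjugate_apply]
        refine (det_boundC _ (fun s => if s ∈ I then A else Z) ?_).trans ?_
        · intro s j
          by_cases hs : s = r
          · rw [hs, Matrix.updateRow_self, if_neg hr]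
            by_cases hj : j = i₀
            · rw [hj, Pi.single_eq_same, norm_one]; exact hZ
            · rw [Pi.single_eq_of_ne hj, norm_zero]; exact hZ0
          · rw [Matrix.updateRow_ne hs]
            by_cases hs2 : s ∈ I
            · rw [if_pos hs2]; exact hIA s hs2 j (algebraMap K ℂ)
            · rw [if_neg hs2]; exact hIZ s hs2 j (algebraMap K ℂ)
        · rw [prod_rows, hB, ← mul_assoc]
          exact mul_le_mul_of_nonneg_right (mul_le_mul_of_nonneg_left
            (pow_le_pow_right₀ hA hIN) (by positivity)) (by positivity)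
    calc ∑ r, ‖R.adjugate i₀ r * (R.mulVec Y) r‖ ≤ ∑ _r : Fin N, B * L :=
          Finset.sum_le_sum fun r _ => h3 r
      _ = N * L * B := by
          rw [Finset.sum_const, Finset.card_univ, Fintype.card_fin, nsmul_eq_mul]; ring
  -- the norm
  have hI : IsIntegral ℤ M.det := IsIntegral.det hint
  have hn0 : Algebra.norm ℚ M.det ≠ 0 := Algebra.norm_ne_zero_iff.2 hdet
  obtain ⟨z, hz⟩ := IsIntegrallyClosed.isIntegral_iff.1 (Algebra.isIntegral_norm ℚ hI)
  have hz0 : z ≠ 0 := by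
    intro h
    rw [h, map_zero] at hz
    exact hn0 hz.symm
  have hnorm : (1 : ℝ) ≤ ‖algebraMap ℚ ℂ (Algebra.norm ℚ M.det)‖ := by
    rw [← hz]
    have h2 : algebraMap ℚ ℂ (algebraMap ℤ ℚ z) = (z : ℂ) := by simp
    rw [h2, Complex.norm_intCast]
    exact_mod_cast Int.one_le_abs hz0
  rw [Algebra.norm_eq_prod_embeddings ℚ ℂ M.det, norm_prod] at hnorm
  have hcard : Fintype.card (K →ₐ[ℚ] ℂ) = Module.finrank ℚ K := AlgHom.card ℚ K ℂ
  have hσ₀ : (K.val : K →ₐ[ℚ] ℂ) ∈ (Finset.univ : Finset (K →ₐ[ℚ] ℂ)) := Finset.mem_univ _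
  have hnorm' : (1 : ℝ) ≤ ∏ σ ∈ (Finset.univ : Finset (K →ₐ[ℚ] ℂ)), ‖σ M.det‖ := by
    refine hnorm.trans_eq ?_
    refine Finset.prod_congr ?_ fun _ _ => rfl
    ext σ
    simp
  have hnorm'' : (1 : ℝ) ≤ ‖(K.val : K →ₐ[ℚ] ℂ) M.det‖ *
      ∏ σ ∈ Finset.univ.erase (K.val : K →ₐ[ℚ] ℂ), ‖σ M.det‖ := by
    refine hnorm'.trans_eq ?_
    exact (Finset.mul_prod_erase Finset.univ (fun σ : K →ₐ[ℚ] ℂ => ‖σ M.det‖) hσ₀).symm
  have hle : ∏ σ ∈ Finset.univ.erase (K.val : K →ₐ[ℚ] ℂ), ‖σ M.det‖ ≤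
      B ^ (Module.finrank ℚ K - 1) := by
    have h2 : (Finset.univ.erase (K.val : K →ₐ[ℚ] ℂ)).card = Module.finrank ℚ K - 1 := by
      have h3 : (Finset.univ : Finset (K →ₐ[ℚ] ℂ)).card = Module.finrank ℚ K := by
        rw [Finset.card_univ, hcard]
      rw [← h3]
      exact Finset.card_erase_of_mem hσ₀
    rw [← h2, ← Finset.prod_const]
    exact Finset.prod_le_prod (fun _ _ => norm_nonneg _) fun σ _ => hconj (σ : K →+* ℂ)
  have hfr : 1 ≤ Module.finrank ℚ K := Module.finrank_pos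
  have hNL : 0 ≤ N * L * B := by positivity
  calc (1 : ℝ) ≤ _ := hnorm''
    _ ≤ (N * L * B) * B ^ (Module.finrank ℚ K - 1) :=
        mul_le_mul hincl hle (Finset.prod_nonneg fun _ _ => norm_nonneg _) hNL
    _ = N * L * B ^ (Module.finrank ℚ K) := by
        rw [mul_assoc, ← pow_succ', Nat.sub_add_cancel hfr]
    _ ≤ N * L * B ^ m :=
        mul_le_mul_of_nonneg_left (pow_le_pow_right₀ hB1 hm) (by positivity)

end Pool.Agent.Y708.AL
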