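import Pool.Agent.Y492.AL.Stm
import Pool.Agent.H974R2.Static

/-!
# Project AL: `S_K1` (adding an edge merges two classes) and `S_SYM` (symmetry of the differences)
-/

set_option autoImplicit false

namespace Pool.Agent.Y708.AL

open H974 H12S H973N Finset Pool.Agent.Y492.AL

theorem reach_insert {F : Set Edg} {e : Edg} {x y : Vtx} : Reach (insert e F) x y ↔
    Reach F x y ∨ (Reach F x (src e) ∧ Reach F (tgt e) y) ∨
      (Reach F x (tgt e) ∧ Reach F (src e) y) :=
  GR_insert (s := src) (t := tgt)

/-- the class of a vertex -/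
def cls (F : Set Edg) (v : Vtx) : Set Vtx := {w | Reach F v w}

theorem cls_eq {F : Set Edg} {v w : Vtx} (h : Reach F v w) : cls F v = cls F w := by
  ext x
  exact ⟨fun hx => h.symm.trans hx, fun hx => h.trans hx⟩

theorem mem_cls (F : Set Edg) (v : Vtx) : v ∈ cls F v := Reach.refl _ _

theorem cls_eq_iff {F : Set Edg} {v w : Vtx} : cls F v = cls F w ↔ Reach F v w := by
  constructor
  · intro h
    have : w ∈ cls F v := by rw [h]; exact mem_cls F w
    exact this
  · exact cls_eq

theorem k1 : S_K1 := by
  intro V F e hs ht _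
  have hco : (↑(insert e F) : Set Edg) = insert e (↑F : Set Edg) := Finset.coe_insert e F
  constructor
  · intro hn
    set G : Set Edg := (↑F : Set Edg) with hG
    set As := cls G (src e) with hAs
    set At := cls G (tgt e) with hAt
    set R : Set (Set Vtx) := (cls G '' (↑V : Set Vtx)) \ {As, At} with hR
    set M := cls (insert e G) (src e) with hM
    have hsV : src e ∈ (↑V : Set Vtx) := hs
    have htV : tgt e ∈ (↑V : Set Vtx) := ht
    have hfin : (cls G '' (↑V : Set Vtx)).Finite := V.finite_toSet.image _
    have hRfin : R.Finite := hfin.subset Set.sdiff_subset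
    have hne : As ≠ At := fun h => hn (cls_eq_iff.1 h)
    have hAtR : At ∉ R := fun h => h.2 (by simp)
    have hAsR : As ∉ insert At R := by
      rintro (h | h)
      · exact hne h
      · exact h.2 (by simp)
    -- the class of a vertex away from `e`
    have haway : ∀ v, ¬ Reach G v (src e) → ¬ Reach G v (tgt e) →
        cls (insert e G) v = cls G v := by
      intro v h1 h2
      ext w
      show Reach (insert e G) v w ↔ Reach G v w
      rw [reach_insert]
      constructor
      · rintro (h | ⟨h, _⟩ | ⟨h, _⟩)
        · exact h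
        · exact absurd h h1
        · exact absurd h h2
      · exact Or.inl
    have hmono : ∀ v w, Reach G v w → Reach (insert e G) v w := fun v w h =>
      h.mono (Set.subset_insert _ _)
    have hst : Reach (insert e G) (src e) (tgt e) := by
      rw [reach_insert]
      exact Or.inr (Or.inl ⟨Reach.refl _ _, Reach.refl _ _⟩)
    have e1 : cls G '' (↑V : Set Vtx) = insert As (insert At R) := by
      ext A
      constructor
      · intro hA
        by_cases h1 : A = As
        · exact Or.inl h1
        · by_cases h2 : A = At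
          · exact Or.inr (Or.inl h2)
          · exact Or.inr (Or.inr ⟨hA, by simp [h1, h2]⟩)
      · rintro (h | h | h)
        · rw [h]; exact ⟨_, hsV, rfl⟩
        · rw [h]; exact ⟨_, htV, rfl⟩
        · exact h.1
    have hMR : M ∉ R := by
      rintro ⟨⟨v, _, hv⟩, h2⟩
      apply h2
      left
      have h3 : src e ∈ cls G v := by rw [hv]; exact mem_cls _ _
      rw [← hv]
      exact cls_eq h3
    have e2 : cls (insert e G) '' (↑V : Set Vtx) = insert M R := by
      ext A
      constructor
      · rintro ⟨v, hv, rfl⟩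
        by_cases h1 : Reach G v (src e)
        · left
          exact cls_eq (hmono _ _ h1)
        · by_cases h2 : Reach G v (tgt e)
          · left
            exact cls_eq ((hmono _ _ h2).trans hst.symm)
          · right
            rw [haway v h1 h2]
            refine ⟨⟨v, hv, rfl⟩, ?_⟩
            rintro (h | h)
            · exact h1 (cls_eq_iff.1 h)
            · exact h2 (cls_eq_iff.1 h)
      · rintro (h | ⟨⟨v, hv, rfl⟩, h⟩)
        · rw [h]; exact ⟨_, hsV, rfl⟩
        · refine ⟨v, hv, ?_⟩
          apply haway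
          · intro h1; exact h (Or.inl (cls_eq h1))
          · intro h1; exact h (Or.inr (cls_eq h1))
    show Set.ncard (cls G '' (↑V : Set Vtx)) =
      Set.ncard (cls (↑(insert e F) : Set Edg) '' (↑V : Set Vtx)) + 1
    rw [hco, e1, e2, Set.ncard_insert_of_notMem hAsR (hRfin.insert _),
      Set.ncard_insert_of_notMem hAtR hRfin, Set.ncard_insert_of_notMem hMR hRfin]
  · intro h
    have h1 : ∀ v w, Reach (↑(insert e F) : Set Edg) v w ↔ Reach (↑F : Set Edg) v w := by
      intro v w
      rw [hco, reach_insert]
      constructor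
      · rintro (h' | ⟨ha, hb⟩ | ⟨ha, hb⟩)
        · exact h'
        · exact ha.trans (h.trans hb)
        · exact ha.trans (h.symm.trans hb)
      · exact Or.inl
    unfold ncl
    simp only [h1]

/-- symmetry of the first differences -/
theorem pf_sym (K : Set Edg) (e f : Edg) :
    (Reach (insert f K) (src e) (tgt e) ∧ ¬ Reach K (src e) (tgt e)) →
    (Reach (insert e K) (src f) (tgt f) ∧ ¬ Reach K (src f) (tgt f)) := by
  rintro ⟨h1, h2⟩
  rw [reach_insert] at h1
  rw [reach_insert]
  rcases h1 with h1 | ⟨ha, hb⟩ | ⟨ha, hb⟩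
  · exact absurd h1 h2
  · refine ⟨Or.inr (Or.inl ⟨ha.symm, hb.symm⟩), fun h => h2 (ha.trans (h.trans hb))⟩
  · refine ⟨Or.inr (Or.inr ⟨hb, ha⟩), fun h => h2 (ha.trans (h.symm.trans hb))⟩

theorem pf_sym_iff (K : Set Edg) (e f : Edg) :
    (Reach (insert f K) (src e) (tgt e) ∧ ¬ Reach K (src e) (tgt e)) ↔
    (Reach (insert e K) (src f) (tgt f) ∧ ¬ Reach K (src f) (tgt f)) :=
  ⟨pf_sym K e f, pf_sym K f e⟩

theorem cn_iff {e : Edg} {G K : Finset Edg} (h : G.erase e = K) :
    cn e G ↔ Reach (↑K : Set Edg) (src e) (tgt e) := by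
  subst h; rfl

theorem prop1 (x0 x1 y0 y1 : Prop) (m1 : x0 → x1) (m2 : x0 → y0) :
    (((x1 ∧ ¬ x0) ∨ (y1 ∧ ¬ y0)) ∧ ((y0 ∧ ¬ x0) ∨ (y1 ∧ ¬ x1)) ∧ y1 ∧ ¬ x0) ↔
      (y1 ∧ ¬ x0 ∧ (x1 ↔ y0)) := by
  by_cases h0 : x0 <;> by_cases h1 : x1 <;> by_cases h2 : y0 <;> by_cases h3 : y1 <;> simp_all

theorem prop2 (x0 x1 y0 y1 u0 u1 v0 v1 : Prop) (m1 : x0 → x1) (m2 : x0 → y0) (m3 : y0 → y1)
    (m4 : x1 → y1) (n1 : u0 → u1) (n2 : u0 → v0) (n3 : v0 → v1) (n4 : u1 → v1)
    (p1 : (x1 ∧ ¬ x0) ↔ (u1 ∧ ¬ u0)) (p2 : (y1 ∧ ¬ y0) ↔ (v1 ∧ ¬ v0)) :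
    (y1 ∧ ¬ x0 ∧ (x1 ↔ y0)) ↔ (v1 ∧ ¬ u0 ∧ (u1 ↔ v0)) := by
  by_cases h0 : x0 <;> by_cases h1 : x1 <;> by_cases h2 : y0 <;> by_cases h3 : y1 <;>
  by_cases h4 : u0 <;> by_cases h5 : u1 <;> by_cases h6 : v0 <;> by_cases h7 : v1 <;> simp_all

theorem sym : S_SYM := by
  constructor
  · intro e f F hne
    set K : Finset Edg := (F.erase e).erase f with hK
    have a1 : (insert f F).erase e = insert f K := by
      ext x; simp only [hK, Finset.mem_erase, Finset.mem_insert]
      by_cases h1 : x = e <;> by_cases h2 : x = f <;> simp_all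
    have a2 : (F.erase f).erase e = K := by
      ext x; simp only [hK, Finset.mem_erase]; tauto
    have b1 : (insert e F).erase f = insert e K := by
      ext x; simp only [hK, Finset.mem_erase, Finset.mem_insert]
      by_cases h1 : x = e <;> by_cases h2 : x = f <;> simp_all
    have b2 : (F.erase e).erase f = K := rfl
    unfold Pf
    rw [cn_iff a1, cn_iff a2, cn_iff b1, cn_iff b2, Finset.coe_insert, Finset.coe_insert]
    exact pf_sym_iff _ e f
  · intro e f g F hef hfg heg
    set K : Finset Edg := ((F.erase e).erase f).erase g with hK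
    -- the four sets for `e`
    have key : ∀ a b c : Edg, a ≠ b → b ≠ c → a ≠ c → ((F.erase a).erase b).erase c = K →
        (SD (cn a) b c F ↔ (Reach (insert b (insert c (↑K : Set Edg))) (src a) (tgt a) ∧
          ¬ Reach (↑K : Set Edg) (src a) (tgt a) ∧
          (Reach (insert b (↑K : Set Edg)) (src a) (tgt a) ↔
            Reach (insert c (↑K : Set Edg)) (src a) (tgt a)))) := by
      intro a b c hab hbc hac hKK
      have hx : ∀ x, x ∈ K ↔ (x ≠ c ∧ x ≠ b ∧ x ≠ a ∧ x ∈ F) := by
        intro x; rw [← hKK]; simp only [Finset.mem_erase]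
      have a1 : (insert b (F.erase c)).erase a = insert b K := by
        ext x; simp only [Finset.mem_erase, Finset.mem_insert, hx]
        by_cases h1 : x = a <;> by_cases h2 : x = b <;> by_cases h3 : x = c <;> simp_all
      have a2 : ((F.erase c).erase b).erase a = K := by
        ext x; simp only [Finset.mem_erase, hx]; tauto
      have a3 : (insert b (insert c F)).erase a = insert b (insert c K) := by
        ext x; simp only [Finset.mem_erase, Finset.mem_insert, hx]
        by_cases h1 : x = a <;> by_cases h2 : x = b <;> by_cases h3 : x = c <;> simp_all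
      have a4 : ((insert c F).erase b).erase a = insert c K := by
        ext x; simp only [Finset.mem_erase, Finset.mem_insert, hx]
        by_cases h1 : x = a <;> by_cases h2 : x = b <;> by_cases h3 : x = c <;> simp_all
      have a5 : (insert c (F.erase b)).erase a = insert c K := by
        ext x; simp only [Finset.mem_erase, Finset.mem_insert, hx]
        by_cases h1 : x = a <;> by_cases h2 : x = b <;> by_cases h3 : x = c <;> simp_all
      have a6 : ((F.erase b).erase c).erase a = K := by
        ext x; simp only [Finset.mem_erase, hx]; tauto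
      have a7 : (insert c (insert b F)).erase a = insert b (insert c K) := by
        rw [Finset.insert_comm]; exact a3
      have a8 : ((insert b F).erase c).erase a = insert b K := by
        ext x; simp only [Finset.mem_erase, Finset.mem_insert, hx]
        by_cases h1 : x = a <;> by_cases h2 : x = b <;> by_cases h3 : x = c <;> simp_all
      unfold SD Pf
      rw [cn_iff a1, cn_iff a2, cn_iff a3, cn_iff a4, cn_iff a5, cn_iff a6, cn_iff a7, cn_iff a8]
      simp only [Finset.coe_insert]
      have m1 : Reach (↑K : Set Edg) (src a) (tgt a) →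
          Reach (insert b (↑K : Set Edg)) (src a) (tgt a) := fun h => h.mono (Set.subset_insert _ _)
      have m2 : Reach (↑K : Set Edg) (src a) (tgt a) →
          Reach (insert c (↑K : Set Edg)) (src a) (tgt a) := fun h => h.mono (Set.subset_insert _ _)
      exact prop1 _ _ _ _ m1 m2
    have hK1 : ((F.erase e).erase f).erase g = K := rfl
    have hK2 : ((F.erase f).erase e).erase g = K := by
      ext x; simp only [hK, Finset.mem_erase]; tauto
    have hK3 : ((F.erase e).erase g).erase f = K := by
      ext x; simp only [hK, Finset.mem_erase]; tauto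
    constructor
    · rw [key e f g hef hfg heg hK1, key f e g hef.symm heg hfg hK2]
      have p1 := pf_sym_iff (↑K : Set Edg) e f
      have p2 := pf_sym_iff (insert g (↑K : Set Edg)) e f
      have m1 : Reach (↑K : Set Edg) (src e) (tgt e) →
          Reach (insert f (↑K : Set Edg)) (src e) (tgt e) := fun h => h.mono (Set.subset_insert _ _)
      have m2 : Reach (↑K : Set Edg) (src e) (tgt e) →
          Reach (insert g (↑K : Set Edg)) (src e) (tgt e) := fun h => h.mono (Set.subset_insert _ _)
      have m3 : Reach (insert g (↑K : Set Edg)) (src e) (tgt e) →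
          Reach (insert f (insert g (↑K : Set Edg))) (src e) (tgt e) :=
        fun h => h.mono (Set.subset_insert _ _)
      have m4 : Reach (insert f (↑K : Set Edg)) (src e) (tgt e) →
          Reach (insert f (insert g (↑K : Set Edg))) (src e) (tgt e) :=
        fun h => h.mono (Set.insert_subset_insert (Set.subset_insert _ _))
      have n1 : Reach (↑K : Set Edg) (src f) (tgt f) →
          Reach (insert e (↑K : Set Edg)) (src f) (tgt f) := fun h => h.mono (Set.subset_insert _ _)
      have n2 : Reach (↑K : Set Edg) (src f) (tgt f) →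
          Reach (insert g (↑K : Set Edg)) (src f) (tgt f) := fun h => h.mono (Set.subset_insert _ _)
      have n3 : Reach (insert g (↑K : Set Edg)) (src f) (tgt f) →
          Reach (insert e (insert g (↑K : Set Edg))) (src f) (tgt f) :=
        fun h => h.mono (Set.subset_insert _ _)
      have n4 : Reach (insert e (↑K : Set Edg)) (src f) (tgt f) →
          Reach (insert e (insert g (↑K : Set Edg))) (src f) (tgt f) :=
        fun h => h.mono (Set.insert_subset_insert (Set.subset_insert _ _))
      exact prop2 _ _ _ _ _ _ _ _ m1 m2 m3 m4 n1 n2 n3 n4 p1 p2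
    · rw [key e f g hef hfg heg hK1, key e g f heg hfg.symm hef hK3, Set.insert_comm]
      tauto

end Pool.Agent.Y708.AL
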